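import Pool.Agent.H927.MG.SGoals

/-!
# Project M4P1 of helper927: the piece `S_spd` (base change of the special data)
-/

set_option autoImplicit false

open AlgebraicGeometry CategoryTheory Limits Polynomial
open scoped LaurentPolynomial
open LaurentPolynomial (T invert T_add T_zero involutive_invert invert_T invert_C)

namespace Pool.Agent.H553.MG927

open Pool.Agent.W523 Pool.Agent.H927.MG

variable {R S : Type} [CommRing R] [CommRing S] (φ : R →+* S) (Q : SPar R)

lemma c2 : (C 2 : R[X]) = 2 := map_ofNat C 2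

lemma map_u : (Q.map φ).u = φ Q.u := by
  simp [SPar.u, SPar.map]

lemma map_μ : (Q.map φ).μ = φ Q.μ := by
  have h2 : φ 2 = 2 := map_ofNat φ 2
  have h8 : φ 8 = 8 := map_ofNat φ 8
  have h20 : φ 20 = 20 := map_ofNat φ 20
  simp [SPar.μ, SPar.map, h2, h8, h20]

lemma map_ε : (Q.map φ).ε = φ Q.ε := by
  have h2 : φ 2 = 2 := map_ofNat φ 2
  simp [SPar.ε, SPar.map, h2]

lemma map_ξ₁ : (Q.map φ).ξ₁ = φ Q.ξ₁ := by
  simp only [SPar.ξ₁, map_μ, map_ε, map_add]

lemma map_ξ₂ : (Q.map φ).ξ₂ = φ Q.ξ₂ := by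
  simp only [SPar.ξ₂, map_μ, map_ε, map_sub]

lemma map_s : (Q.map φ).s = φ Q.s := rfl

lemma map_i : (Q.map φ).i = φ Q.i := rfl

lemma map_lam : (Q.map φ).lam = φ Q.lam := rfl

lemma map_σ : (Q.map φ).σ = φ Q.σ := rfl

lemma map_At : (Q.map φ).At = Q.At.map φ := by
  have h2 : φ 2 = 2 := map_ofNat φ 2
  have h8 : φ 8 = 8 := map_ofNat φ 8
  have h16 : φ 16 = 16 := map_ofNat φ 16
  have h24 : φ 24 = 24 := map_ofNat φ 24
  have h18 : φ 18 = 18 := map_ofNat φ 18
  have h4 : φ 4 = 4 := map_ofNat φ 4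
  simp only [SPar.At, map_u, map_lam, map_σ, Polynomial.map_add, Polynomial.map_sub,
    Polynomial.map_mul, Polynomial.map_pow, Polynomial.map_C, Polynomial.map_X, map_add, map_sub,
    map_mul, map_pow, h2, h8, h16, h24, h18, h4]

lemma map_Qt : (Q.map φ).Qt = Q.Qt.map φ := by
  have h2 : φ 2 = 2 := map_ofNat φ 2
  have h8 : φ 8 = 8 := map_ofNat φ 8
  simp only [SPar.Qt, map_u, map_lam, map_σ, Polynomial.map_add, Polynomial.map_sub,
    Polynomial.map_mul, Polynomial.map_pow, Polynomial.map_C, Polynomial.map_X, map_add,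
    map_mul, map_pow, h2, h8]

lemma map_ll : (Q.map φ).ll = Q.ll.map φ := by
  simp only [SPar.ll, map_ξ₁, map_ξ₂, Polynomial.map_sub, Polynomial.map_mul, Polynomial.map_C,
    Polynomial.map_X]

lemma map_mm : (Q.map φ).mm = Q.mm.map φ := by
  simp only [SPar.mm, map_μ, Polynomial.map_sub, Polynomial.map_C, Polynomial.map_X]

lemma vt_map {V T₁ : R[X]} (h : Q.VT V T₁) : (Q.map φ).VT (V.map φ) (T₁.map φ) := by
  have p2 : Polynomial.map φ (2 : R[X]) = 2 := by
    rw [← c2, Polynomial.map_C, map_ofNat φ 2]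
    exact c2
  have h8 : φ 8 = 8 := map_ofNat φ 8
  constructor
  · have := congrArg (Polynomial.map φ) h.hV
    simp only [Polynomial.map_add, Polynomial.map_sub, Polynomial.map_mul, Polynomial.map_pow,
      Polynomial.map_C, p2, map_mul, map_add, map_pow, h8] at this
    rw [map_At, map_Qt, map_ll, map_mm, map_u, map_ε]
    simp only [map_mul, map_add, map_pow]
    exact this
  · have := congrArg (Polynomial.map φ) h.hT
    simp only [Polynomial.map_add, Polynomial.map_sub, Polynomial.map_mul, Polynomial.map_pow,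
      Polynomial.map_C, p2, map_mul, map_add, map_pow, h8] at this
    rw [map_At, map_Qt, map_ll, map_mm, map_u, map_ε]
    simp only [map_mul, map_add, map_pow]
    exact this

lemma Lmap_sB (s i : R) : Lmap φ (sB s i) = sB (φ s) (φ i) := by
  simp only [sB, map_mul, map_add, map_one, Lmap_C, Lmap_T]

lemma Lmap_sA (μ s i : R) : Lmap φ (sA μ s i) = sA (φ μ) (φ s) (φ i) := by
  simp only [sA, map_mul, map_add, map_sub, Lmap_C, Lmap_T, Lmap_sB]

lemma Lmap_slm (a b : R) : Lmap φ (slm a b) = slm (φ a) (φ b) := by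
  simp only [slm, map_mul, map_sub, Lmap_C, Lmap_T]

lemma vt2_map {V T₁ V₂ T₂ : R[X]} (h : Q.VT2 V T₁ V₂ T₂) :
    (Q.map φ).VT2 (V.map φ) (T₁.map φ) (V₂.map φ) (T₂.map φ) := by
  have p2 : Lmap φ (2 : R[T;T⁻¹]) = 2 := map_ofNat (Lmap φ) 2
  constructor
  · have := congrArg (Lmap φ) h.hV
    simp only [Lmap_inv, map_mul, map_add, map_pow, Lmap_toLaurent, Lmap_T, Lmap_sA, Lmap_sB,
      Lmap_slm, p2] at this
    rw [map_μ, map_ξ₁, map_ξ₂, map_s, map_i]
    exact this
  · have := congrArg (Lmap φ) h.hT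
    simp only [Lmap_inv, map_mul, map_add, map_pow, Lmap_toLaurent, Lmap_T, Lmap_sA, Lmap_sB,
      Lmap_slm, p2] at this
    rw [map_μ, map_ξ₁, map_ξ₂, map_s, map_i]
    exact this

theorem spd : S_spd := by
  intro R S _ _ φ Q V T₁ V₂ T₂
  refine ⟨vt_map φ Q, fun h => ⟨vt2_map φ Q h, ?_⟩⟩
  have e1 := map_ξ₁ φ Q
  have e2 := map_ξ₂ φ Q
  have e3 := map_μ φ Q
  have e4 := map_s φ Q
  have e5 := map_i φ Q
  apply GD.ext'
  · ext1 <;> simp [SPar.gd, sgd, e1, e2]
  · ext1 <;> simp [SPar.gd, sgd, e1, e2]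
  all_goals simp [SPar.gd, sgd, Mor.comp, diagMor, Mor.diag, Mor.copy, Mor.twist, Lmap_T, Lmap_sA,
    Lmap_sB, Lmap_C, e1, e2, e3, e4, e5]

end Pool.Agent.H553.MG927
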